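import Pool.Agent.R80.WF.Fin
import Pool.Agent.R80.WF.P3A
import Pool.Agent.R80.WF.P3B
import Pool.Agent.R80.WF.F0Fin
import Pool.Agent.R80.WF.X33
import Pool.Agent.R80.WF.X54
import Pool.Agent.R80.WF.X55
import Pool.Agent.Run7.h503.WN.TwoAll
import Pool.Agent.Run7.h503.WN.G22

/-!
# Weil numbers with prescribed p-rank over the prime field: all primes, dimensions and p-ranks

For every prime `p`, every `g ≥ 2` and every `f ≤ g` with `(g, f) ≠ (2, 0)` there is an irreducible
Weil `p`-polynomial of degree `2g` with exactly `f` unit roots such that no power of a root generates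
a smaller field. By Honda-Tate theory it is the characteristic polynomial of Frobenius of an
absolutely simple abelian variety over `F_p` of dimension `g` and `p`-rank `f`. For `g = 1` curves
over `F_p` with `f = 0, 1` are known, and a supersingular surface is never simple over the algebraic
closure; so `n(p, g, f) = 1` for every `p` and every pair `(g, f)` for which it is defined.

The starting results of this problem contain the odd primes for `g ≥ 3`, and `f ≤ 1` for `p = 2`. New
here: `p = 2` with `2 ≤ f ≤ g`, and `(g, f) = (2, 2)` for every prime.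

Method for `p = 2`: `P = ∑_{i<g} a_i (X^(2g-i) + 2^(g-i) X^i) + a_g X^g` with
`∑_{i<g} a_i z^i + a_g z^g / 2` free of zeros on `|z| ≤ 1/√2` (then the roots of `P` lie on the
circle), `P = (X^2 - 1)^g` modulo 3 and `P(1) = 6` modulo 9. The roots satisfy
`|2 - x|^2 = 2 |1 - x|^2`, so the values of a factor at `1` and at `-1` are divisible by 3 together
and `P` is irreducible; `P(1)` is the norm of `1 - x` and `6` modulo `9` is not a norm from
`ℚ(√-3)`, so `ℚ(x)` contains no cube root of unity; ratios of conjugates which are roots of unity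
have order dividing `2·3^t`, and taking norms one descends along `x, x^3, x^9, ...`. The
coefficients are given by 108 initial segments of length 13 for `g ≥ 13` (depending on `g` modulo 9
and `min(f, 13)`), each with an approximate inverse certifying the absence of zeros, by 54 explicit
polynomials for `g ≤ 12`, and in 11 exceptional cases with `g ≤ 8` by polynomials treated by
congruences modulo small primes.
-/

set_option autoImplicit false

namespace Pool.Agent.Results.MP_e32a7e_nt.AllCases

open Polynomial

/-- For every prime `p`, every `g ≥ 2` and every `f ≤ g` with `(g, f) ≠ (2, 0)` there is a monic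
integer polynomial `P` of degree `2g`, irreducible over the rationals, all of whose complex roots have
absolute value `√p`, whose coefficients of degree less than `2g - f` are divisible by `p` while the
coefficient of degree `2g - f` is not, and such that `ℚ(xⁿ) = ℚ(x)` for every complex root `x` and
every `n ≥ 1`. -/
theorem result (p g f : ℕ) (hp : p.Prime) (hg : 2 ≤ g) (hfg : f ≤ g) (h20 : ¬ (g = 2 ∧ f = 0)) :
    ∃ P : ℤ[X], P.Monic ∧ P.natDegree = 2 * g ∧ Irreducible (P.map (Int.castRingHom ℚ)) ∧
      (∀ x : ℂ, aeval x P = 0 → ‖x‖ = Real.sqrt p) ∧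
      (∀ i < 2 * g - f, (p : ℤ) ∣ P.coeff i) ∧ ¬ (p : ℤ) ∣ P.coeff (2 * g - f) ∧
      (∀ x : ℂ, aeval x P = 0 → ∀ n : ℕ, 1 ≤ n →
        IntermediateField.adjoin ℚ {x ^ n} = IntermediateField.adjoin ℚ {x}) := by
  by_cases h1 : f = 1
  · subst h1
    exact Y676.WP.one_final hp hg
  by_cases hg2 : g = 2
  · subst hg2
    have h2 : f = 2 := by omega
    subst h2
    exact H503.WN.good_two_two p hp
  have hg3 : 3 ≤ g := by omega
  rcases Nat.eq_zero_or_pos f with h0 | h0
  · subst h0
    by_cases h1 : p = 3 ∧ g = 3
    · obtain ⟨rfl, rfl⟩ := h1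
      exact R80.WF.g330
    by_cases h2 : p = 5 ∧ g = 4
    · obtain ⟨rfl, rfl⟩ := h2
      exact R80.WF.g540
    by_cases h3 : p = 5 ∧ g = 5
    · obtain ⟨rfl, rfl⟩ := h3
      exact R80.WF.g550
    exact R80.WF.good_f0 hp hg3 h1 h2 h3
  · by_cases h2 : p = 2
    · subst h2
      exact H503.WN.two_all g f hg3 (by omega) hfg
    · exact R80.WF.odd_main R80.WF.p3a R80.WF.p3b hp h2 hg3 h0 hfg

end Pool.Agent.Results.MP_e32a7e_nt.AllCases
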